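import Mathlib
import Pool.Agent.Q184.Bridge.Core2

/-!
The Bridge Theorem for monoid actions on compact abelian groups.
-/

set_option autoImplicit false
set_option linter.unusedSectionVars false

open Filter Topology Set

namespace Pool.Agent.Results.MP_699bc8_an.BridgeTheorem

universe u v w

/-- A left action of the monoid `S` on the compact abelian group `K` (written multiplicatively) by
continuous endomorphisms: `γ 1 = id` and `γ (s * t) = γ s ∘ γ t`. -/
structure LeftAction (S : Type v) [Monoid S] (K : Type u) [CommGroup K] [TopologicalSpace K] where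
  /-- the endomorphism of an element of `S` -/
  toFun : S → K →ₜ* K
  map_one : ∀ x, toFun 1 x = x
  map_mul : ∀ s t x, toFun (s * t) x = toFun s (toFun t x)

/-- `F` is a left Følner net of the monoid `S`: a net of non-empty finite subsets of `S` with
`|s F_i \ F_i| / |F_i| → 0` for every `s`. -/
structure IsLeftFolnerNet {S : Type v} [Monoid S] {I : Type w} [Preorder I] (F : I → Finset S) :
    Prop where
  nonempty : ∀ i, (F i).Nonempty
  folner : ∀ s : S, Tendsto (fun i =>
    ((((fun t => s * t) '' (F i : Set S)) \ (F i : Set S)).ncard : ℝ) / ((F i).card : ℝ))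
      atTop (𝓝 0)

variable {S : Type v} [Monoid S] {K : Type u} [CommGroup K] [TopologicalSpace K]

/-- Finite open covers of `K`. -/
structure IsFiniteOpenCover (𝒰 : Set (Set K)) : Prop where
  finite : 𝒰.Finite
  isOpen : ∀ U ∈ 𝒰, IsOpen U
  cover : ⋃₀ 𝒰 = univ

/-- The join `𝒰_F` of the covers `γ(s)⁻¹(𝒰)`, `s ∈ F`: its members are the intersections over
`s ∈ F` of the sets `γ(s)⁻¹(f s)` with `f s ∈ 𝒰`. -/
def joinCover (γ : LeftAction S K) (F : Finset S) (𝒰 : Set (Set K)) : Set (Set K) :=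
  {W | ∃ f : S → Set K, (∀ s ∈ F, f s ∈ 𝒰) ∧ W = ⋂ s ∈ F, γ.toFun s ⁻¹' f s}

/-- `N(𝒰)`: the least size of a subcover of `𝒰`. -/
noncomputable def coverNum (𝒰 : Set (Set K)) : ℕ :=
  sInf {n | ∃ 𝒱 ⊆ 𝒰, 𝒱.Finite ∧ 𝒱.ncard = n ∧ ⋃₀ 𝒱 = univ}

/-- `log N(𝒰_F) / |F|`. -/
noncomputable def topRate (γ : LeftAction S K) (F : Finset S) (𝒰 : Set (Set K)) : ℝ :=
  Real.log (coverNum (joinCover γ F 𝒰)) / F.card

/-- The sumset `T_F(X) = ∑_{s ∈ F} X · s` in the dual group (written multiplicatively), for the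
dual right action `χ · s = χ ∘ γ(s)`. -/
def trajectory (γ : LeftAction S K) (F : Finset S) (X : Set (K →ₜ* Circle)) :
    Set (K →ₜ* Circle) :=
  {ψ | ∃ x : S → (K →ₜ* Circle), (∀ s ∈ F, x s ∈ X) ∧ ψ = ∏ s ∈ F, (x s).comp (γ.toFun s)}

/-- `log |T_F(X)| / |F|`. -/
noncomputable def algRate (γ : LeftAction S K) (F : Finset S) (X : Set (K →ₜ* Circle)) : ℝ :=
  Real.log ((trajectory γ F X).ncard) / F.card

/-- The topological entropy, along the net `F`: the supremum over the finite open covers of the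
upper limit of `log N(𝒰_{F_i}) / |F_i|`. -/
noncomputable def topEntropySup (γ : LeftAction S K) {I : Type w} [Preorder I]
    (F : I → Finset S) : EReal :=
  ⨆ (𝒰 : Set (Set K)) (_ : IsFiniteOpenCover 𝒰),
    limsup (fun i => (topRate γ (F i) 𝒰 : EReal)) atTop

/-- The same with the lower limit. -/
noncomputable def topEntropyInf (γ : LeftAction S K) {I : Type w} [Preorder I]
    (F : I → Finset S) : EReal :=
  ⨆ (𝒰 : Set (Set K)) (_ : IsFiniteOpenCover 𝒰),
    liminf (fun i => (topRate γ (F i) 𝒰 : EReal)) atTop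

/-- The algebraic entropy of the dual action, along the net `F`: the supremum over the finite
non-empty subsets `X` of the dual of the upper limit of `log |T_{F_i}(X)| / |F_i|`. -/
noncomputable def algEntropySup (γ : LeftAction S K) {I : Type w} [Preorder I]
    (F : I → Finset S) : EReal :=
  ⨆ (X : Set (K →ₜ* Circle)) (_ : X.Finite ∧ X.Nonempty),
    limsup (fun i => (algRate γ (F i) X : EReal)) atTop

/-- The same with the lower limit. -/
noncomputable def algEntropyInf (γ : LeftAction S K) {I : Type w} [Preorder I]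
    (F : I → Finset S) : EReal :=
  ⨆ (X : Set (K →ₜ* Circle)) (_ : X.Finite ∧ X.Nonempty),
    liminf (fun i => (algRate γ (F i) X : EReal)) atTop

section aux

variable [IsTopologicalGroup K] [CompactSpace K] [T2Space K]

theorem traj_eq (γ : LeftAction S K) (F : Finset S) (X : Set (K →ₜ* Circle)) :
    trajectory γ F X = Pool.Agent.Q184.Bridge.traj γ.toFun F X := by
  classical
  ext ψ
  constructor
  · rintro ⟨x, hx, rfl⟩
    refine ⟨fun s => x s, fun s => hx s s.2, ?_⟩
    rw [← Finset.prod_coe_sort]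
  · rintro ⟨x, hx, rfl⟩
    refine ⟨fun s => if h : s ∈ F then x ⟨s, h⟩ else 1, ?_, ?_⟩
    · intro s hs
      simp only [hs, dif_pos]
      exact hx _
    · rw [← Finset.prod_coe_sort F]
      refine Finset.prod_congr rfl fun s _ => ?_
      simp only [s.2, dif_pos]

theorem low (γ : LeftAction S K) {X : Set (K →ₜ* Circle)} (hX : X.Finite ∧ X.Nonempty) (δ : ℝ)
    (hδ : 0 < δ) : ∃ 𝒰 : Set (Set K), IsFiniteOpenCover 𝒰 ∧ ∀ F : Finset S, F.Nonempty →
      algRate γ F X ≤ δ + topRate γ F 𝒰 := by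
  classical
  obtain ⟨hXf, hXn⟩ := hX
  let A : Finset (K →ₜ* Circle) := hXf.toFinset
  have hA : (A : Set (K →ₜ* Circle)) = X := hXf.coe_toFinset
  have hAn : A.Nonempty := by
    obtain ⟨x, hx⟩ := hXn
    exact ⟨x, hXf.mem_toFinset.mpr hx⟩
  have hρ : 1 < Real.exp (δ / 3) := Real.one_lt_exp_iff.mpr (by positivity)
  obtain ⟨𝒰, h1, h2, h3, h4⟩ := Pool.Agent.Q184.Bridge.lower γ.toFun A _ hρ
  refine ⟨𝒰, ⟨h1, h2, h3⟩, fun F hF => ?_⟩
  have hFc : (0 : ℝ) < F.card := by exact_mod_cast hF.card_pos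
  have h5 := h4 F
  rw [hA] at h5
  unfold algRate topRate
  rw [traj_eq]
  have hN : 0 < coverNum (joinCover γ F 𝒰) :=
    Pool.Agent.Q184.Bridge.coverNum_pos (Pool.Agent.Q184.Bridge.joinCover_finite γ.toFun F h1)
      (Pool.Agent.Q184.Bridge.joinCover_cover γ.toFun F h3)
  have hN' : (0 : ℝ) < coverNum (joinCover γ F 𝒰) := by exact_mod_cast hN
  have hT : 0 < (Pool.Agent.Q184.Bridge.traj γ.toFun F X).ncard := by
    rw [← hA, Set.ncard_pos (Pool.Agent.Q184.Bridge.traj_finite γ.toFun F A)]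
    exact Pool.Agent.Q184.Bridge.traj_nonempty γ.toFun F A hAn
  have hT' : (0 : ℝ) < (Pool.Agent.Q184.Bridge.traj γ.toFun F X).ncard := by exact_mod_cast hT
  have h6 : ((Pool.Agent.Q184.Bridge.traj γ.toFun F X).ncard : ℝ) ≤
      (Real.exp (δ / 3) ^ 3) ^ F.card * (coverNum (joinCover γ F 𝒰) : ℝ) := h5
  have h7 := Real.log_le_log hT' h6
  have h8 : (Real.exp (δ / 3) ^ 3) ^ F.card = Real.exp (δ * F.card) := by
    rw [← Real.exp_nat_mul, ← Real.exp_nat_mul]
    congr 1
    push_cast
    ring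
  rw [h8, Real.log_mul (Real.exp_pos _).ne' hN'.ne', Real.log_exp] at h7
  rw [div_le_iff₀ hFc, add_mul, div_mul_cancel₀ _ hFc.ne']
  exact h7

theorem upp (γ : LeftAction S K) {𝒰 : Set (Set K)} (h𝒰 : IsFiniteOpenCover 𝒰) (δ : ℝ)
    (hδ : 0 < δ) : ∃ X : Set (K →ₜ* Circle), (X.Finite ∧ X.Nonempty) ∧ ∀ F : Finset S,
      F.Nonempty → topRate γ F 𝒰 ≤ δ + algRate γ F X := by
  have hρ : 1 < Real.exp δ := Real.one_lt_exp_iff.mpr hδ
  obtain ⟨A, hAn, h4⟩ := Pool.Agent.Q184.Bridge.upper γ.toFun 𝒰 h𝒰.isOpen h𝒰.cover _ hρ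
  refine ⟨A, ⟨A.finite_toSet, hAn⟩, fun F hF => ?_⟩
  have hFc : (0 : ℝ) < F.card := by exact_mod_cast hF.card_pos
  have h5 := h4 F
  unfold algRate topRate
  rw [traj_eq]
  have hN : 0 < coverNum (joinCover γ F 𝒰) :=
    Pool.Agent.Q184.Bridge.coverNum_pos
      (Pool.Agent.Q184.Bridge.joinCover_finite γ.toFun F h𝒰.finite)
      (Pool.Agent.Q184.Bridge.joinCover_cover γ.toFun F h𝒰.cover)
  have hN' : (0 : ℝ) < coverNum (joinCover γ F 𝒰) := by exact_mod_cast hN
  have hT : 0 < (Pool.Agent.Q184.Bridge.traj γ.toFun F (A : Set (K →ₜ* Circle))).ncard := by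
    rw [Set.ncard_pos (Pool.Agent.Q184.Bridge.traj_finite γ.toFun F A)]
    exact Pool.Agent.Q184.Bridge.traj_nonempty γ.toFun F A hAn
  have hT' : (0 : ℝ) < (Pool.Agent.Q184.Bridge.traj γ.toFun F (A : Set (K →ₜ* Circle))).ncard := by
    exact_mod_cast hT
  have h6 : (coverNum (joinCover γ F 𝒰) : ℝ) ≤ Real.exp δ ^ F.card *
      ((Pool.Agent.Q184.Bridge.traj γ.toFun F (A : Set (K →ₜ* Circle))).ncard : ℝ) := h5
  have h7 := Real.log_le_log hN' h6
  have h8 : Real.exp δ ^ F.card = Real.exp (δ * F.card) := by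
    rw [← Real.exp_nat_mul]
    congr 1
    ring
  rw [h8, Real.log_mul (Real.exp_pos _).ne' hT'.ne', Real.log_exp] at h7
  rw [div_le_iff₀ hFc, add_mul, div_mul_cancel₀ _ hFc.ne']
  exact h7

theorem limsup_shift {I : Type*} {l : Filter I} [l.NeBot] (a b : I → ℝ) (δ : ℝ)
    (h : ∀ i, a i ≤ δ + b i) :
    limsup (fun i => (a i : EReal)) l ≤ (δ : EReal) + limsup (fun i => (b i : EReal)) l := by
  have h1 : limsup (fun i => (a i : EReal)) l ≤
      limsup ((fun _ => (δ : EReal)) + fun i => (b i : EReal)) l := by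
    refine limsup_le_limsup ?_
    · refine Eventually.of_forall fun i => ?_
      show (a i : EReal) ≤ (δ : EReal) + (b i : EReal)
      exact_mod_cast h i
  have h2 : limsup (fun _ : I => (δ : EReal)) l = δ := limsup_const _
  refine h1.trans ((EReal.limsup_add_le ?_ ?_).trans ?_)
  · left; rw [h2]; exact EReal.coe_ne_bot δ
  · left; rw [h2]; exact EReal.coe_ne_top δ
  · rw [h2]

theorem liminf_shift {I : Type*} {l : Filter I} [l.NeBot] (a b : I → ℝ) (δ : ℝ)
    (h : ∀ i, a i ≤ δ + b i) :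
    liminf (fun i => (a i : EReal)) l ≤ (δ : EReal) + liminf (fun i => (b i : EReal)) l := by
  have h1 : liminf (fun i => (a i : EReal)) l ≤
      liminf ((fun _ => (δ : EReal)) + fun i => (b i : EReal)) l := by
    refine liminf_le_liminf ?_
    · refine Eventually.of_forall fun i => ?_
      show (a i : EReal) ≤ (δ : EReal) + (b i : EReal)
      exact_mod_cast h i
  have h2 : limsup (fun _ : I => (δ : EReal)) l = δ := limsup_const _
  refine h1.trans ((EReal.liminf_add_le ?_ ?_).trans ?_)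
  · left; rw [h2]; exact EReal.coe_ne_bot δ
  · left; rw [h2]; exact EReal.coe_ne_top δ
  · rw [h2]

theorem le_of_shift {L H : EReal} (h : ∀ δ : ℝ, 0 < δ → L ≤ (δ : EReal) + H) : L ≤ H := by
  rw [← EReal.le_of_forall_lt_iff_le]
  intro z hz
  induction H with
  | bot =>
    have := h 1 one_pos
    rw [EReal.add_bot] at this
    exact this.trans bot_le
  | coe r =>
    have hz' : r < z := by exact_mod_cast hz
    have := h (z - r) (by linarith)
    rw [← EReal.coe_add] at this
    have e : z - r + r = z := by ring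
    rwa [e] at this
  | top => exact absurd hz (not_lt.mpr le_top)

end aux

/-- **The Bridge Theorem.** Let the monoid `S` act on the left on the compact abelian group `K` by
continuous endomorphisms, and let `F` be a left Følner net of `S`. Then the topological entropy of
the action equals the algebraic entropy of the dual right action. Here the entropies are computed
along `F` with upper limits (first statement), with lower limits (second statement), or with limits
whenever these exist (third statement; by the theorem of Ornstein-Weiss type quoted in the problem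
they do exist and are independent of the left Følner net if `S` is cancellative). Neither the
cancellation law nor the Følner condition is needed: `S` is any monoid and `F` any net of non-empty
finite subsets. -/
theorem result {S : Type v} [Monoid S] {K : Type u} [CommGroup K] [TopologicalSpace K]
    [IsTopologicalGroup K] [CompactSpace K] [T2Space K] (γ : LeftAction S K)
    {I : Type w} [Preorder I] [IsDirected I (· ≤ ·)] [Nonempty I] (F : I → Finset S)
    (hF : IsLeftFolnerNet F ∨ ∀ i, (F i).Nonempty) :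
    topEntropySup γ F = algEntropySup γ F ∧ topEntropyInf γ F = algEntropyInf γ F ∧
      ∀ (h : Set (Set K) → ℝ) (a : Set (K →ₜ* Circle) → ℝ),
        (∀ 𝒰, IsFiniteOpenCover 𝒰 →
          Tendsto (fun i => topRate γ (F i) 𝒰) atTop (𝓝 (h 𝒰))) →
        (∀ X : Set (K →ₜ* Circle), X.Finite ∧ X.Nonempty →
          Tendsto (fun i => algRate γ (F i) X) atTop (𝓝 (a X))) →
        (⨆ (𝒰 : Set (Set K)) (_ : IsFiniteOpenCover 𝒰), (h 𝒰 : EReal)) =
          ⨆ (X : Set (K →ₜ* Circle)) (_ : X.Finite ∧ X.Nonempty), (a X : EReal) := by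
  have hne : ∀ i, (F i).Nonempty := hF.elim (fun h => h.nonempty) id
  have hsup : topEntropySup γ F = algEntropySup γ F := by
    refine le_antisymm ?_ ?_
    · refine iSup₂_le fun 𝒰 h𝒰 => le_of_shift fun δ hδ => ?_
      obtain ⟨X, hX, h⟩ := upp γ h𝒰 δ hδ
      refine (limsup_shift _ _ δ fun i => h (F i) (hne i)).trans ?_
      gcongr
      exact le_iSup₂_of_le X hX le_rfl
    · refine iSup₂_le fun X hX => le_of_shift fun δ hδ => ?_
      obtain ⟨𝒰, h𝒰, h⟩ := low γ hX δ hδ
      refine (limsup_shift _ _ δ fun i => h (F i) (hne i)).trans ?_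
      gcongr
      exact le_iSup₂_of_le 𝒰 h𝒰 le_rfl
  refine ⟨hsup, le_antisymm ?_ ?_, ?_⟩
  · refine iSup₂_le fun 𝒰 h𝒰 => le_of_shift fun δ hδ => ?_
    obtain ⟨X, hX, h⟩ := upp γ h𝒰 δ hδ
    refine (liminf_shift _ _ δ fun i => h (F i) (hne i)).trans ?_
    gcongr
    exact le_iSup₂_of_le X hX le_rfl
  · refine iSup₂_le fun X hX => le_of_shift fun δ hδ => ?_
    obtain ⟨𝒰, h𝒰, h⟩ := low γ hX δ hδ
    refine (liminf_shift _ _ δ fun i => h (F i) (hne i)).trans ?_
    gcongr
    exact le_iSup₂_of_le 𝒰 h𝒰 le_rfl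
  · intro h a hh ha
    have e1 : topEntropySup γ F = ⨆ (𝒰 : Set (Set K)) (_ : IsFiniteOpenCover 𝒰), (h 𝒰 : EReal) := by
      unfold topEntropySup
      refine iSup_congr fun 𝒰 => iSup_congr fun h𝒰 => ?_
      exact ((continuous_coe_real_ereal.tendsto _).comp (hh 𝒰 h𝒰)).limsup_eq
    have e2 : algEntropySup γ F =
        ⨆ (X : Set (K →ₜ* Circle)) (_ : X.Finite ∧ X.Nonempty), (a X : EReal) := by
      unfold algEntropySup
      refine iSup_congr fun X => iSup_congr fun hX => ?_
      exact ((continuous_coe_real_ereal.tendsto _).comp (ha X hX)).limsup_eq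
    rw [← e1, ← e2, hsup]

end Pool.Agent.Results.MP_699bc8_an.BridgeTheorem
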